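import Pool.Agent.Helper76.TH3.StC3

/-!
# Project TH (3, 2), module DIMEH3: dimension of subEH
-/

set_option autoImplicit false

namespace Pool.Agent.Helper53.TH3

open Pool.Agent.Helper76.TH3 Pool.Agent.Helper93.TLH

section lin

variable {W W' : Type} [AddCommGroup W] [Module ℂ W] [FiniteDimensional ℂ W] [AddCommGroup W']
  [Module ℂ W']

private theorem rn (f : W →ₗ[ℂ] W') (V : Submodule ℂ W) :
    Module.finrank ℂ (V.map f) + Module.finrank ℂ ↥(V ⊓ LinearMap.ker f) =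
      Module.finrank ℂ V := by
  have h := LinearMap.finrank_range_add_finrank_ker (f.domRestrict V)
  rw [LinearMap.range_domRestrict, LinearMap.ker_domRestrict] at h
  have h2 : Module.finrank ℂ ↥((LinearMap.ker f).comap V.subtype) =
      Module.finrank ℂ ↥(V ⊓ LinearMap.ker f) := by
    rw [← Submodule.map_comap_subtype, Submodule.finrank_map_subtype_eq]
  rw [h2] at h
  exact h

end lin

section lin2

variable {W W' : Type} [AddCommGroup W] [Module ℂ W] [FiniteDimensional ℂ W] [AddCommGroup W']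
  [Module ℂ W'] [FiniteDimensional ℂ W']

private theorem fr_prod (V : Submodule ℂ W) (V' : Submodule ℂ W') :
    Module.finrank ℂ ↥(V.prod V') = Module.finrank ℂ V + Module.finrank ℂ V' := by
  have h1 : V.prod V' = LinearMap.range (V.subtype.prodMap V'.subtype) := by
    rw [LinearMap.range_prodMap, Submodule.range_subtype, Submodule.range_subtype]
  rw [h1, LinearMap.finrank_range_of_inj, Module.finrank_prod]
  rintro ⟨a, b⟩ ⟨a', b'⟩ h
  simp only [LinearMap.prodMap_apply, Submodule.subtype_apply, Prod.mk.injEq,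
    SetLike.coe_eq_coe] at h
  rw [h.1, h.2]

end lin2

/-- `4` times the projection onto `inv3 r r' e e'` -/
private def P {m : ℕ} (r r' : Pt m → Pt m) (e e' : ℂ) : (Pt m → ℂ) →ₗ[ℂ] (Pt m → ℂ) where
  toFun F p := F p + e * F (r p) + e' * F (r' p) + e * e' * F (r (r' p))
  map_add' F F' := by funext p; simp only [Pi.add_apply]; ring
  map_smul' c F := by funext p; simp only [Pi.smul_apply, smul_eq_mul, RingHom.id_apply]; ring

private theorem P_apply {m : ℕ} (r r' : Pt m → Pt m) (e e' : ℂ) (F : Pt m → ℂ) (p : Pt m) :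
    P r r' e e' F p = F p + e * F (r p) + e' * F (r' p) + e * e' * F (r (r' p)) := rfl

private theorem pw0 {m : ℕ} (hm : 1 ≤ m) : (3 : ZMod (3 ^ m)) * 3 ^ (m - 1) = 0 := by
  rw [← pow_succ', Nat.sub_add_cancel hm]
  have h3 := ZMod.natCast_self (3 ^ m)
  push_cast at h3
  exact h3

private theorem red {m : ℕ} (hm : 1 ≤ m) (t : ℤ) :
    (t : ZMod (3 ^ m)) * 3 ^ (m - 1) = ((t : ZMod 3).val : ZMod (3 ^ m)) * 3 ^ (m - 1) := by
  have h1 : ((t : ZMod 3).val : ℤ) = t % 3 := by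
    rw [ZMod.val_intCast]
    norm_num
  have h2 : (((t : ZMod 3).val : ℕ) : ZMod (3 ^ m)) = ((t % 3 : ℤ) : ZMod (3 ^ m)) := by
    rw [← h1]
    push_cast
    rfl
  rw [h2]
  have h3 : t = t % 3 + 3 * (t / 3) := (Int.emod_add_mul_ediv t 3).symm
  have h4 : (t : ZMod (3 ^ m)) = ((t % 3 : ℤ) : ZMod (3 ^ m)) + 3 * ((t / 3 : ℤ) : ZMod (3 ^ m)) := by
    conv_lhs => rw [h3]
    push_cast
    ring
  rw [h4]
  linear_combination ((t / 3 : ℤ) : ZMod (3 ^ m)) * pw0 hm

private theorem sum_zmod (g : ℕ → ℂ) :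
    ∑ i ∈ Finset.range 3, g i = ∑ z : ZMod 3, g z.val := by
  have : ∀ h : ZMod 3 → ℂ, ∑ z : ZMod 3, h z = ∑ i : Fin 3, h i := fun h => rfl
  rw [Finset.sum_range, this]
  rfl

private theorem sum_s {m : ℕ} (hm : 1 ≤ m) (s : ℤ) (hs : ¬ (3 : ℤ) ∣ s)
    (g : ZMod (3 ^ m) → ℂ) :
    ∑ i ∈ Finset.range 3, g (s * ((i : ZMod (3 ^ m)) * 3 ^ (m - 1))) =
      ∑ i ∈ Finset.range 3, g ((i : ZMod (3 ^ m)) * 3 ^ (m - 1)) := by
  have hf : Fact (Nat.Prime 3) := ⟨by norm_num⟩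
  have hs0 : (s : ZMod 3) ≠ 0 := by
    intro h
    exact hs ((ZMod.intCast_zmod_eq_zero_iff_dvd s 3).1 h)
  rw [sum_zmod (fun i => g (s * ((i : ZMod (3 ^ m)) * 3 ^ (m - 1)))),
    sum_zmod (fun i => g ((i : ZMod (3 ^ m)) * 3 ^ (m - 1)))]
  refine Fintype.sum_equiv (Equiv.mulLeft₀ (s : ZMod 3) hs0) _ _ fun z => ?_
  have h1 := red hm (s * (z.val : ℤ))
  have h2 : ((s * (z.val : ℤ) : ℤ) : ZMod 3) = (s : ZMod 3) * z := by
    push_cast
    rw [ZMod.natCast_zmod_val]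
  rw [h2] at h1
  change g (s * ((z.val : ZMod (3 ^ m)) * 3 ^ (m - 1))) =
    g ((((s : ZMod 3) * z).val : ZMod (3 ^ m)) * 3 ^ (m - 1))
  rw [← h1]
  congr 1
  push_cast
  ring

private theorem anti_s {m : ℕ} (hm : 1 ≤ m) {F : Pt m → ℂ} (hF : F ∈ anti3 m) (s : ℤ)
    (hs : ¬ (3 : ℤ) ∣ s) (x y : ZMod (3 ^ m)) :
    ∑ i ∈ Finset.range 3, F (x + s * (i * 3 ^ (m - 1)), y) = 0 ∧
      ∑ i ∈ Finset.range 3, F (x, y + s * (i * 3 ^ (m - 1))) = 0 := by
  obtain ⟨h1, h2⟩ := hF (x, y)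
  constructor
  · rw [sum_s hm s hs (fun t => F (x + t, y))]
    exact h1
  · rw [sum_s hm s hs (fun t => F (x, y + t))]
    exact h2

private theorem dv_step {m : ℕ} (hm : 1 ≤ m) {s : ℤ} {φ : ZMod (3 ^ m) → ZMod (3 ^ m)}
    (h : Dv s φ) (x : ZMod (3 ^ m)) (i : ℕ) :
    φ (x + i * 3 ^ (m - 1)) = φ x + s * (i * 3 ^ (m - 1)) := by
  have h1 := h (m - 1) (x + i * 3 ^ (m - 1)) x ⟨i, by ring⟩
  have h2 : (3 : ZMod (3 ^ m)) ^ (m - 1 + 1) = 0 := by
    rw [Nat.sub_add_cancel hm]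
    have h3 := ZMod.natCast_self (3 ^ m)
    push_cast at h3
    exact h3
  rw [h2, zero_dvd_iff] at h1
  linear_combination h1

private theorem anti_comp {m n : ℕ} (hm : 1 ≤ m) {r : Pt m → Pt m} (hr : Ty n r) {F : Pt m → ℂ}
    (hF : F ∈ anti3 m) : (fun p => F (r p)) ∈ anti3 m := by
  rcases hr with ⟨_, s, s', φ, φ', hs, _, hs', _, hφ, hφ', hr⟩ | ⟨_, s, s', ψ, ψ', hs, hs', hψ, hψ', hr⟩
  · intro p
    simp only [hr, dv_step hm hφ, dv_step hm hφ']
    exact ⟨(anti_s hm hF s hs (φ p.1) (φ' p.2)).1, (anti_s hm hF s' hs' (φ p.1) (φ' p.2)).2⟩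
  · intro p
    simp only [hr, dv_step hm hψ, dv_step hm hψ']
    exact ⟨(anti_s hm hF s' hs' (ψ p.2) (ψ' p.1)).2, (anti_s hm hF s hs (ψ p.2) (ψ' p.1)).1⟩

private theorem P_mem {m n n' : ℕ} (hm : 1 ≤ m) {r r' : Pt m → Pt m} (hk : Kl r r') (hr : Ty n r)
    (hr' : Ty n' r') {e e' : ℂ} (he : e * e = 1) (he' : e' * e' = 1) {F : Pt m → ℂ}
    (hF : F ∈ anti3 m) : P r r' e e' F ∈ inv3 r r' e e' := by
  obtain ⟨k1, k2, k3⟩ := hk
  have h1 : (fun p => F (r p)) ∈ anti3 m := anti_comp hm hr hF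
  have h2 : (fun p => F (r' p)) ∈ anti3 m := anti_comp hm hr' hF
  have h3 : (fun p => F (r (r' p))) ∈ anti3 m := anti_comp hm hr' h1
  refine ⟨?_, fun p => ⟨?_, ?_⟩⟩
  · have h4 : P r r' e e' F = F + e • (fun p => F (r p)) + e' • (fun p => F (r' p)) +
        (e * e') • (fun p => F (r (r' p))) := by
      funext p
      simp only [P_apply, Pi.add_apply, Pi.smul_apply, smul_eq_mul]
    rw [h4]
    exact Submodule.add_mem _ (Submodule.add_mem _ (Submodule.add_mem _ hF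
      (Submodule.smul_mem _ _ h1)) (Submodule.smul_mem _ _ h2)) (Submodule.smul_mem _ _ h3)
  · simp only [P_apply]
    rw [k1 p, ← k3 p, k1 (r' p)]
    linear_combination (-(F (r p)) - e' * F (r (r' p))) * he
  · simp only [P_apply]
    rw [k2 p]
    linear_combination (-(F (r' p)) - e * F (r (r' p))) * he'

private theorem P_inv {m : ℕ} {r r' : Pt m → Pt m} {e e' : ℂ} (he : e * e = 1)
    (he' : e' * e' = 1) {F : Pt m → ℂ} (hF : F ∈ inv3 r r' e e') : P r r' e e' F = (4 : ℂ) • F := by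
  obtain ⟨_, h⟩ := hF
  funext p
  simp only [P_apply, Pi.smul_apply, smul_eq_mul]
  rw [(h (r' p)).1, (h p).1, (h p).2]
  linear_combination (2 * F p) * he + (F p) * he' + F p * e * e * he'

private def K1 {m : ℕ} : ((Pt m → ℂ) × (Pt m → ℂ)) →ₗ[ℂ] (Pt m → ℂ) where
  toFun F p := (F.2 p + F.2 (swH p) - F.1 p) +
      (F.2 (swH (cBH p)) + F.2 (swH (swH (cBH p))) - F.1 (swH (cBH p)))
  map_add' F F' := by funext p; simp only [Prod.fst_add, Prod.snd_add, Pi.add_apply]; ring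
  map_smul' c F := by
    funext p
    simp only [Prod.smul_fst, Prod.smul_snd, Pi.smul_apply, smul_eq_mul, RingHom.id_apply]
    ring

private theorem K1_apply {m : ℕ} (F : (Pt m → ℂ) × (Pt m → ℂ)) (p : Pt m) :
    K1 F p = (F.2 p + F.2 (swH p) - F.1 p) +
      (F.2 (swH (cBH p)) + F.2 (swH (swH (cBH p))) - F.1 (swH (cBH p))) := rfl

private theorem n1 : (((-1 : ℤ) : ℂ)) = -1 := by push_cast; rfl
private theorem p1 : (((1 : ℤ) : ℂ)) = 1 := by push_cast; rfl

/-- **Module DIMEH3.** -/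
theorem hDimEH3 : StHDimE3 := by
  intro ht hk hs m hm
  obtain ⟨⟨a1, a2, a3, a4⟩, -, ⟨c1, c2, c3, c4⟩, -, ⟨b1, b2, b3⟩, -⟩ := ht m
  obtain ⟨eV, q2⟩ := hk m hm
  have eF := q2 ng swH 0 1 1 1 1 a1 a2 a3 a4 (Or.inl rfl) (Or.inl rfl)
  have e4 := q2 swH cBH 1 1 0 1 1 b1 a3 b2 b3 (Or.inl rfl) (Or.inl rfl)
  have eT := q2 (dR 1) cCH 0 1 1 (-1) 1 c1 c2 c3 c4 (Or.inr rfl) (Or.inl rfl)
  rw [p1] at eF e4
  rw [n1, p1] at eT
  set Vf := inv3 (m := m) ng swH 1 1 with hVf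
  set V4 := inv3 (m := m) swH cBH 1 1 with hV4
  set V3 := inv3 (m := m) (dR 1) cCH (-1) 1 with hV3
  set Q : ((Pt m → ℂ) × (Pt m → ℂ)) →ₗ[ℂ] ((Pt m → ℂ) × (Pt m → ℂ)) :=
    LinearMap.prod K1 ((P (dR 1) cCH (-1) 1).comp (LinearMap.snd ℂ _ _)) with hQ
  have hQa : ∀ F, Q F = (K1 F, P (dR 1) cCH (-1) 1 F.2) := fun _ => rfl
  have hmap : (Vf.prod (anti3 m)).map Q = V4.prod V3 := by
    apply le_antisymm
    · rintro _ ⟨F, hF, rfl⟩
      obtain ⟨hF1, hF2⟩ := hF
      rw [hQa]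
      refine ⟨⟨?_, fun p => ⟨?_, ?_⟩⟩, P_mem hm c1 c2 c3 (by norm_num) (by norm_num) hF2⟩
      · have e : K1 F = (F.2 + (fun p => F.2 (swH p)) - F.1) +
            ((fun p => F.2 (swH (cBH p))) + (fun p => F.2 (swH (swH (cBH p)))) -
              (fun p => F.1 (swH (cBH p)))) := rfl
        rw [e]
        have x1 : (fun p => F.2 (swH p)) ∈ anti3 m := anti_comp hm a3 hF2
        have x2 : (fun p => F.2 (swH (cBH p))) ∈ anti3 m := anti_comp hm b2 x1
        have x3 : (fun p => F.2 (swH (swH p))) ∈ anti3 m := anti_comp hm a3 x1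
        have x4 : (fun p => F.2 (swH (swH (cBH p)))) ∈ anti3 m := anti_comp hm b2 x3
        have x5 : (fun p => F.1 (swH p)) ∈ anti3 m := anti_comp hm a3 hF1.1
        have x6 : (fun p => F.1 (swH (cBH p))) ∈ anti3 m := anti_comp hm b2 x5
        exact Submodule.add_mem _ (Submodule.sub_mem _ (Submodule.add_mem _ hF2 x1) hF1.1)
          (Submodule.sub_mem _ (Submodule.add_mem _ x2 x4) x6)
      · show K1 F (swH p) = 1 * K1 F p
        rw [K1_apply, K1_apply, ← b1.2.2 p, b1.1 p, b1.1 (cBH p), (hF1.2 p).2,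
          (hF1.2 (cBH p)).2]
        ring
      · show K1 F (cBH p) = 1 * K1 F p
        rw [K1_apply, K1_apply, b1.2.1 p, b1.1 p, b1.1 (cBH p), (hF1.2 p).2,
          (hF1.2 (cBH p)).2]
        ring
    · rintro ⟨φ, ψ⟩ ⟨hφ, hψ⟩
      simp only at hφ hψ
      obtain ⟨f0, hf0, l0, hl0, hfl0, hfn0, hld0⟩ := hs 1 m hm ((4 : ℂ)⁻¹ • ψ) (Submodule.smul_mem _ _ hψ.1)
      obtain ⟨f1, hf1, l1, hl1, hfl1, hfn1, hld1⟩ := hs 1 m hm ((4 : ℂ)⁻¹ • φ) (Submodule.smul_mem _ _ hφ.1)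
      have s0 := anti_comp hm a3 hf0
      have s1 := anti_comp hm a3 hf1
      refine ⟨((f0 + fun p => f0 (swH p)) - (f1 + fun p => f1 (swH p)), f0 + l1),
        ⟨⟨?_, fun p => ⟨?_, ?_⟩⟩, ?_⟩, ?_⟩
      · exact Submodule.sub_mem _ (Submodule.add_mem _ hf0 s0) (Submodule.add_mem _ hf1 s1)
      · simp only [Pi.sub_apply, Pi.add_apply]
        rw [← a1.2.2 p, hfn0 p, hfn1 p, hfn0 (swH p), hfn1 (swH p)]
        ring
      · simp only [Pi.sub_apply, Pi.add_apply]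
        rw [a1.2.1 p]
        ring
      · exact Submodule.add_mem _ hf0 hl1
      · rw [hQa, Prod.mk.injEq]
        constructor
        · funext p
          have x1 := hfl1 p
          have x2 := hfl1 (swH p)
          have x3 := hfl1 (swH (cBH p))
          have x4 := hfl1 (swH (swH (cBH p)))
          simp only [Pi.smul_apply, smul_eq_mul] at x1 x2 x3 x4
          rw [b1.1 (cBH p), (hφ.2 p).2] at x4
          rw [(hφ.2 p).1] at x2
          rw [(hφ.2 (cBH p)).1, (hφ.2 p).2] at x3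
          rw [K1_apply, b1.1 (cBH p)]
          simp only [Pi.sub_apply, Pi.add_apply]
          rw [b1.1 (cBH p)]
          linear_combination -x1 - x2 - x3 - x4
        · have hPl : ∀ l : Pt m → ℂ, (∀ p, l (dR 1 p) = l p) → P (dR 1) cCH (-1) 1 l = 0 := by
            intro l hl
            funext p
            simp only [P_apply, Pi.zero_apply]
            rw [hl p, hl (cCH p)]
            ring
          have hsum : (4 : ℂ)⁻¹ • ψ = f0 + l0 := funext fun p => hfl0 p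
          have hPψ := P_inv (r := (dR 1 : Pt m → Pt m)) (r' := cCH) (e := -1) (e' := 1) (by norm_num)
            (by norm_num) hψ
          rw [map_add, hPl l1 hld1, add_zero]
          have hPf : P (dR 1) cCH (-1) 1 f0 = P (dR 1) cCH (-1) 1 ((4 : ℂ)⁻¹ • ψ) := by
            rw [hsum, map_add, hPl l0 hld0, add_zero]
          rw [hPf, map_smul, hPψ, smul_smul, inv_mul_cancel₀ (by norm_num), one_smul]
  have hker : (Vf.prod (anti3 m)) ⊓ LinearMap.ker Q = subEH m := by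
    ext F
    constructor
    · rintro ⟨⟨h1, h2⟩, h8⟩
      rw [SetLike.mem_coe, LinearMap.mem_ker, hQa, Prod.mk_eq_zero] at h8
      refine ⟨h1, h2, fun p => ?_, fun p => ?_⟩
      · have := congrFun h8.1 p
        simp only [K1_apply, Pi.zero_apply] at this
        exact this
      · have := congrFun h8.2 p
        simp only [P_apply, Pi.zero_apply] at this
        linear_combination this
    · rintro ⟨h1, h2, h8, h9⟩
      refine ⟨⟨h1, h2⟩, ?_⟩
      rw [SetLike.mem_coe, LinearMap.mem_ker, hQa, Prod.mk_eq_zero]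
      constructor
      · funext p
        simp only [K1_apply, Pi.zero_apply]
        exact h8 p
      · funext p
        simp only [P_apply, Pi.zero_apply]
        linear_combination h9 p
  have h6 := rn Q (Vf.prod (anti3 m))
  rw [hmap, hker] at h6
  simp only [fr_prod] at h6
  zify at h6 eV ⊢
  push_cast at eF e4 eT
  linarith

end Pool.Agent.Helper53.TH3
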