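import Pool.Agent.Helper93.TH3.StD

/-!
# Project TH3, module Uni: a symbol with zero plane functions is constant
-/

set_option autoImplicit false

namespace Pool.Agent.Helper53.TH3

open Pool.Agent.Helper93.TH3 Pool.Agent.Helper93.TLH
open Pool.Agent.Helper14.CV (Homog EqC act Tl StFar StFex)

private lemma un3 (n : ℕ) {a b c d : ℤ} (h : HTy a (3 * b) (3 * c) d) :
    IsUnit (a : ZMod (3 ^ n)) ∧ IsUnit (d : ZMod (3 ^ n)) := by
  have key : ∀ k : ℤ, IsCoprime k 3 → IsUnit (k : ZMod (3 ^ n)) := by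
    intro k hk
    rw [ZMod.coe_int_isUnit_iff_isCoprime]
    push_cast
    exact IsCoprime.pow_left hk.symm
  rcases h with ⟨h, _⟩ | ⟨h, _⟩
  · exact ⟨key a ⟨d, -(3 * b * c), by linear_combination h⟩,
      key d ⟨a, -(3 * b * c), by linear_combination h⟩⟩
  · exact ⟨key a ⟨-d, 3 * b * c + 1, by linear_combination (-1) * h⟩,
      key d ⟨-a, 3 * b * c + 1, by linear_combination (-1) * h⟩⟩

private lemma dvd3' {n : ℤ} : (3 : ℤ) ∣ n ↔ (n : ZMod 3) = 0 :=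
  (ZMod.intCast_zmod_eq_zero_iff_dvd n 3).symm

private lemma cls12 : ∀ p q t u : ZMod 3, p * u - q * t = 1 →
    (q = 0 ∧ t = 0) ∨ (q = 0 ∧ t - 2 * u = 0) ∨ (q = 0 ∧ t + 2 * u = 0) ∨
    (p = 0 ∧ u = 0) ∨ (p = 0 ∧ u + t = 0) ∨ (p = 0 ∧ u - t = 0) ∨
    (q - p = 0 ∧ t = 0) ∨ (-p - 2 * q = 0 ∧ u = 0) ∨ (-p - 2 * q = 0 ∧ t + u = 0) ∨
    (q + p = 0 ∧ t = 0) ∨ (-p + 2 * q = 0 ∧ u = 0) ∨ (-p + 2 * q = 0 ∧ t - u = 0) := by
  decide

private lemma cls12' {p q t u : ℤ} (h : p * u - q * t = 1) :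
    ((3 : ℤ) ∣ q ∧ (3 : ℤ) ∣ t) ∨ ((3 : ℤ) ∣ q ∧ (3 : ℤ) ∣ t - 2 * u) ∨
    ((3 : ℤ) ∣ q ∧ (3 : ℤ) ∣ t + 2 * u) ∨
    ((3 : ℤ) ∣ p ∧ (3 : ℤ) ∣ u) ∨ ((3 : ℤ) ∣ p ∧ (3 : ℤ) ∣ u + t) ∨
    ((3 : ℤ) ∣ p ∧ (3 : ℤ) ∣ u - t) ∨
    ((3 : ℤ) ∣ q - p ∧ (3 : ℤ) ∣ t) ∨ ((3 : ℤ) ∣ -p - 2 * q ∧ (3 : ℤ) ∣ u) ∨
    ((3 : ℤ) ∣ -p - 2 * q ∧ (3 : ℤ) ∣ t + u) ∨
    ((3 : ℤ) ∣ q + p ∧ (3 : ℤ) ∣ t) ∨ ((3 : ℤ) ∣ -p + 2 * q ∧ (3 : ℤ) ∣ u) ∨
    ((3 : ℤ) ∣ -p + 2 * q ∧ (3 : ℤ) ∣ t - u) := by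
  have h1 : ((p : ℤ) : ZMod 3) * (u : ZMod 3) - (q : ZMod 3) * (t : ZMod 3) = 1 := by
    have := congrArg (Int.cast : ℤ → ZMod 3) h
    push_cast at this
    exact this
  have h2 := cls12 _ _ _ _ h1
  simp only [dvd3']
  push_cast
  exact h2

/-- UNI. -/
theorem hUni (he : TEdg) (hp : TPlT) (hf : StFar) : TUni := by
  have _ := hp
  intro R _ r s G hG hz
  have key : ∀ a B C d : ℤ, HTy a B C d → (3 : ℤ) ∣ B → (3 : ℤ) ∣ C →
      G a C = G B d ∧ G a C = G (a + B) (C + d) ∧ G a C = G (-a + B) (-C + d) ∧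
      G (a + 2 * B) (C + 2 * d) = G B d ∧ G (-a + 2 * B) (-C + 2 * d) = G B d := by
    rintro a B C d h ⟨b, rfl⟩ ⟨c, rfl⟩
    have ha : IsUnit (a : ZMod (3 ^ r)) := (un3 r h).1
    have hd : IsUnit (d : ZMod (3 ^ s)) := (un3 s h).2
    have hq : PlT a b c d ((b : ZMod (3 ^ r)) * (a : ZMod (3 ^ r))⁻¹) ((c : ZMod (3 ^ s)) * (d : ZMod (3 ^ s))⁻¹) := by
      refine ⟨h, ?_, ?_⟩
      · rw [mul_assoc, ZMod.inv_mul_of_unit _ ha, mul_one]
      · rw [mul_assoc, ZMod.inv_mul_of_unit _ hd, mul_one]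
    have z := fun i => congrFun (congrFun (hz i) ((b : ZMod (3 ^ r)) * (a : ZMod (3 ^ r))⁻¹)) ((c : ZMod (3 ^ s)) * (d : ZMod (3 ^ s))⁻¹)
    have z0 : edgeT 1 0 0 1 G ((b : ZMod (3 ^ r)) * (a : ZMod (3 ^ r))⁻¹) ((c : ZMod (3 ^ s)) * (d : ZMod (3 ^ s))⁻¹) = 0 := z 0
    have z1 : edgeT 1 0 1 1 G ((b : ZMod (3 ^ r)) * (a : ZMod (3 ^ r))⁻¹) ((c : ZMod (3 ^ s)) * (d : ZMod (3 ^ s))⁻¹) = 0 := z 1
    have z2 : edgeT 1 0 (-1) 1 G ((b : ZMod (3 ^ r)) * (a : ZMod (3 ^ r))⁻¹) ((c : ZMod (3 ^ s)) * (d : ZMod (3 ^ s))⁻¹) = 0 := z 2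
    have z3 : edgeT 1 2 0 1 G ((b : ZMod (3 ^ r)) * (a : ZMod (3 ^ r))⁻¹) ((c : ZMod (3 ^ s)) * (d : ZMod (3 ^ s))⁻¹) = 0 := z 3
    have z4 : edgeT (-1) 2 0 1 G ((b : ZMod (3 ^ r)) * (a : ZMod (3 ^ r))⁻¹) ((c : ZMod (3 ^ s)) * (d : ZMod (3 ^ s))⁻¹) = 0 := z 4
    have k0 := he R _ r s G hG 1 0 0 1 (Or.inl one_ne_zero) (Or.inr one_ne_zero) _ _ a b c d hq
    have k1 := he R _ r s G hG 1 0 1 1 (Or.inl one_ne_zero) (Or.inr one_ne_zero) _ _ a b c d hq
    have k2 := he R _ r s G hG 1 0 (-1) 1 (Or.inl one_ne_zero) (Or.inr one_ne_zero) _ _ a b c d hq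
    have k3 := he R _ r s G hG 1 2 0 1 (Or.inl one_ne_zero) (Or.inr one_ne_zero) _ _ a b c d hq
    have k4 := he R _ r s G hG (-1) 2 0 1 (Or.inl (by norm_num)) (Or.inr one_ne_zero) _ _ a b c d hq
    rw [z0] at k0
    rw [z1] at k1
    rw [z2] at k2
    rw [z3] at k3
    rw [z4] at k4
    have e0 : a * 1 + 3 * b * 0 = a := by ring
    have e1 : 3 * c * 1 + d * 0 = 3 * c := by ring
    have e2 : a * 0 + 3 * b * 1 = 3 * b := by ring
    have e3 : 3 * c * 0 + d * 1 = d := by ring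
    have e4 : a * 1 + 3 * b * 1 = a + 3 * b := by ring
    have e5 : 3 * c * 1 + d * 1 = 3 * c + d := by ring
    have e6 : a * -1 + 3 * b * 1 = -a + 3 * b := by ring
    have e7 : 3 * c * -1 + d * 1 = -(3 * c) + d := by ring
    have e8 : a * 1 + 3 * b * 2 = a + 2 * (3 * b) := by ring
    have e9 : 3 * c * 1 + d * 2 = 3 * c + 2 * d := by ring
    have e10 : a * -1 + 3 * b * 2 = -a + 2 * (3 * b) := by ring
    have e11 : 3 * c * -1 + d * 2 = -(3 * c) + 2 * d := by ring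
    rw [e0, e1, e2, e3] at k0
    rw [e0, e1, e4, e5] at k1
    rw [e0, e1, e6, e7] at k2
    rw [e2, e3, e8, e9] at k3
    rw [e2, e3, e10, e11] at k4
    exact ⟨sub_eq_zero.1 k0.symm, sub_eq_zero.1 k1.symm, sub_eq_zero.1 k2.symm,
      sub_eq_zero.1 k3.symm, sub_eq_zero.1 k4.symm⟩
  -- homogeneity
  have hsc : ∀ k p t : ℤ, k ≠ 0 → (p ≠ 0 ∨ t ≠ 0) → G (k * p) (k * t) = G p t := fun k p t hk n => hG.1 k p t hk n
  -- edges `(p q; t u)` with `t` even
  have hev : ∀ p q t u : ℤ, p * u - q * t = 1 → (2 : ℤ) ∣ t → G p t = G q u := by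
    intro p q t u h h2
    have n1 : p ≠ 0 ∨ t ≠ 0 := by
      by_contra hcon
      push Not at hcon
      rw [hcon.1, hcon.2] at h
      simp at h
    have n2 : q ≠ 0 ∨ u ≠ 0 := by
      by_contra hcon
      push Not at hcon
      rw [hcon.1, hcon.2] at h
      simp at h
    have hneg : G (-p) (-t) = G p t := by
      have := hsc (-1) p t (by norm_num) n1
      rwa [neg_one_mul, neg_one_mul] at this
    have htwo : G (2 * q) (2 * u) = G q u := hsc 2 q u (by norm_num) n2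
    have hmtwo : G (-(2 * q)) (-(2 * u)) = G q u := by
      have := hsc (-2) q u (by norm_num) n2
      have e1 : -2 * q = -(2 * q) := by ring
      have e2 : -2 * u = -(2 * u) := by ring
      rwa [e1, e2] at this
    obtain ⟨w, hw⟩ := h2
    rcases cls12' h with ⟨x, y⟩ | ⟨x, y⟩ | ⟨x, y⟩ | ⟨x, y⟩ | ⟨x, y⟩ | ⟨x, y⟩ | ⟨x, y⟩ | ⟨x, y⟩ |
      ⟨x, y⟩ | ⟨x, y⟩ | ⟨x, y⟩ | ⟨x, y⟩
    · -- the class of `1`
      exact (key p q t u (Or.inl ⟨h, w, hw⟩) x y).1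
    · -- the class of `e`
      have k := (key (p - 2 * q) q (t - 2 * u) u
        (Or.inl ⟨by linear_combination h, w - u, by linear_combination hw⟩) x y).2.2.2.1
      have g1 : p - 2 * q + 2 * q = p := by ring
      have g2 : t - 2 * u + 2 * u = t := by ring
      rwa [g1, g2] at k
    · -- the class of `e'`
      have k := (key (p + 2 * q) q (t + 2 * u) u
        (Or.inl ⟨by linear_combination h, w + u, by linear_combination hw⟩) x y).2.2.2.2
      have g1 : -(p + 2 * q) + 2 * q = -p := by ring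
      have g2 : -(t + 2 * u) + 2 * u = -t := by ring
      rwa [g1, g2, hneg] at k
    · -- the class of `S'`
      have k := (key (2 * q) (-p) (2 * u) (-t)
        (Or.inr ⟨by linear_combination 2 * h, ⟨q, rfl⟩, ⟨u, rfl⟩, ⟨-w, by linear_combination -hw⟩⟩)
        ((dvd_neg).2 x) (Dvd.dvd.mul_left y 2)).1
      rw [hneg, htwo] at k
      exact k.symm
    · -- the class of `eS'`
      have k := (key (2 * q + 2 * p) (-p) (2 * (u + t)) (-t)
        (Or.inr ⟨by linear_combination 2 * h, ⟨q + p, by ring⟩, ⟨u + t, rfl⟩,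
          ⟨-w, by linear_combination -hw⟩⟩)
        ((dvd_neg).2 x) (Dvd.dvd.mul_left y 2)).2.2.2.1
      have g1 : 2 * q + 2 * p + 2 * -p = 2 * q := by ring
      have g2 : 2 * (u + t) + 2 * -t = 2 * u := by ring
      rw [g1, g2, hneg, htwo] at k
      exact k.symm
    · -- the class of `e'S'`
      have k := (key (2 * q - 2 * p) (-p) (2 * (u - t)) (-t)
        (Or.inr ⟨by linear_combination 2 * h, ⟨q - p, by ring⟩, ⟨u - t, rfl⟩,
          ⟨-w, by linear_combination -hw⟩⟩)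
        ((dvd_neg).2 x) (Dvd.dvd.mul_left y 2)).2.2.2.2
      have g1 : -(2 * q - 2 * p) + 2 * -p = -(2 * q) := by ring
      have g2 : -(2 * (u - t)) + 2 * -t = -(2 * u) := by ring
      rw [g1, g2, hneg, hmtwo] at k
      exact k.symm
    · -- the class of `T`
      have k := (key p (q - p) t (u - t)
        (Or.inl ⟨by linear_combination h, w, hw⟩) x y).2.1
      have g1 : p + (q - p) = q := by ring
      have g2 : t + (u - t) = u := by ring
      rwa [g1, g2] at k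
    · -- the class of `TS'`
      have k := (key (2 * q) (-p - 2 * q) (2 * u) (-t - 2 * u)
        (Or.inr ⟨by linear_combination 2 * h, ⟨q, rfl⟩, ⟨u, rfl⟩,
          ⟨-w - u, by linear_combination -hw⟩⟩)
        x (Dvd.dvd.mul_left y 2)).2.1
      have g1 : 2 * q + (-p - 2 * q) = -p := by ring
      have g2 : 2 * u + (-t - 2 * u) = -t := by ring
      rw [g1, g2, hneg, htwo] at k
      exact k.symm
    · -- the class of `κ'`
      have hh : HTy (-2 * p - 2 * q) (-p - 2 * q) (-2 * (t + u)) (-t - 2 * u) :=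
        Or.inr ⟨by linear_combination 2 * h, ⟨-p - q, by ring⟩, ⟨-(t + u), by ring⟩,
          ⟨-w - u, by linear_combination -hw⟩⟩
      obtain ⟨-, -, k3, -, k5⟩ := key _ _ _ _ hh x (Dvd.dvd.mul_left y (-2))
      have k0 := (key _ _ _ _ hh x (Dvd.dvd.mul_left y (-2))).1
      have g1 : -(-2 * p - 2 * q) + (-p - 2 * q) = p := by ring
      have g2 : -(-2 * (t + u)) + (-t - 2 * u) = t := by ring
      have g3 : -(-2 * p - 2 * q) + 2 * (-p - 2 * q) = -(2 * q) := by ring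
      have g4 : -(-2 * (t + u)) + 2 * (-t - 2 * u) = -(2 * u) := by ring
      rw [g1, g2] at k3
      rw [g3, g4, hmtwo] at k5
      rw [← k3, k0, k5]
    · -- the class of `T⁻¹`
      have k := (key p (q + p) t (u + t)
        (Or.inl ⟨by linear_combination h, w, hw⟩) x y).2.2.1
      have g1 : -p + (q + p) = q := by ring
      have g2 : -t + (u + t) = u := by ring
      rwa [g1, g2] at k
    · -- the class of `T⁻¹S'`
      have k := (key (2 * q) (-p + 2 * q) (2 * u) (-t + 2 * u)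
        (Or.inr ⟨by linear_combination 2 * h, ⟨q, rfl⟩, ⟨u, rfl⟩,
          ⟨-w + u, by linear_combination -hw⟩⟩)
        x (Dvd.dvd.mul_left y 2)).2.2.1
      have g1 : -(2 * q) + (-p + 2 * q) = -p := by ring
      have g2 : -(2 * u) + (-t + 2 * u) = -t := by ring
      rw [g1, g2, hneg, htwo] at k
      exact k.symm
    · -- the class of `κ`
      have hh : HTy (2 * p - 2 * q) (-p + 2 * q) (2 * (t - u)) (-t + 2 * u) :=
        Or.inr ⟨by linear_combination 2 * h, ⟨p - q, by ring⟩, ⟨t - u, rfl⟩,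
          ⟨-w + u, by linear_combination -hw⟩⟩
      obtain ⟨k0, k2, -, k4, -⟩ := key _ _ _ _ hh x (Dvd.dvd.mul_left y 2)
      have g1 : 2 * p - 2 * q + (-p + 2 * q) = p := by ring
      have g2 : 2 * (t - u) + (-t + 2 * u) = t := by ring
      have g3 : 2 * p - 2 * q + 2 * (-p + 2 * q) = 2 * q := by ring
      have g4 : 2 * (t - u) + 2 * (-t + 2 * u) = 2 * u := by ring
      rw [g1, g2] at k2
      rw [g3, g4, htwo] at k4
      rw [← k2, k0, k4]
  -- edges with `u` even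
  have hev' : ∀ p q t u : ℤ, p * u - q * t = 1 → (2 : ℤ) ∣ u → G p t = G q u := by
    intro p q t u h h2
    have n1 : p ≠ 0 ∨ t ≠ 0 := by
      by_contra hcon
      push Not at hcon
      rw [hcon.1, hcon.2] at h
      simp at h
    have hneg : G (-p) (-t) = G p t := by
      have := hsc (-1) p t (by norm_num) n1
      rwa [neg_one_mul, neg_one_mul] at this
    have k := hev q (-p) u (-t) (by linear_combination h) h2
    rw [k, hneg]
  refine hf R _ G hG.1 fun p q t u h => ?_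
  by_cases ht : (2 : ℤ) ∣ t
  · exact hev p q t u (by linear_combination h) ht
  · by_cases hu : (2 : ℤ) ∣ u
    · exact hev' p q t u (by linear_combination h) hu
    · have htu : (2 : ℤ) ∣ t + u := by omega
      rw [hev' p (p + q) t (t + u) (by linear_combination h) htu]
      exact hev (p + q) q (t + u) u (by linear_combination h) htu

end Pool.Agent.Helper53.TH3
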